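import Pool.Agent.H854.K.Seq
import Pool.Agent.H854.K.Frob
import Pool.Agent.H854.K.One

/-!
# Semisimplicity of the eigenvalue 1 of Frobenius on étale homology, and one group for each member of
one sequence of cubics

For `n ≥ 1` let `G_n` be the following polynomial with integral coefficients (`univ ℤ n`). A relation
`r` of size `n` is one of the equations `x_i x_j = x_l`, `x_i + x_j = x_l`, `x_i = 1` with
`i, j, l < n`. There are variables `x_i` and `z_ij` for `i, j < n`, and `c_r` for all relations `r`.
The equations (`eqn`) are

  `z_ij - x_i x_j`,  `c_r ^ 2 - c_r`,  `c_r ρ_r`,

where `ρ_r` is the linear polynomial `z_ij - x_l`, `x_i + x_j - x_l` or `x_i - 1` of the relation.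
`G_n` is the sum of the equations multiplied by further variables `t_e`, one for each equation; it is
a cubic polynomial. Let `E_n` be the affine cubic hypersurface `y ^ 2 - y = G_n`, which is smooth over
all fields, and for a prime number `p` let `Y_n` be the covering `y ^ p - y = G_n` of an affine space
over `F_p`, which is finite and étale.

Let `k = F_p`, and let `F` be the field of `ℓ`-adic numbers. We consider étale homology as a
Borel–Moore homology theory: `(H.g m).M X n` is the group `H_{2 n + m}(X̄, ℚ_ℓ(n))` in the notation of
the problem, a module over the polynomial ring `F[t]`, on which `t` acts as the Frobenius. The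
properties that are used (`Sys.IsHomology`) are the long exact sequences of a closed subscheme and its
open complement, the flat pull-back with its compatibilities, and the invariance under affine bundles.
`SS H X i` is the statement `SS_i(X)`: the eigenvalue `1` of the Frobenius on `H_{2 i}(X̄, ℚ_ℓ(i))` is
semisimple. `DominatedBySmoothProper` says that the generalized eigenvectors for the eigenvalue `1` in
`H_{2 i}(X̄, ℚ_ℓ(i))` come from a smooth proper variety (de Jong and Deligne's theory of weights;
Jannsen). `IsRestriction` describes the relation between the theories over `F_p` and over `F_q` (Shapiro's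
lemma).

**Theorem.** The following statements are equivalent.

* `SS_i(E_n)` for infinitely many `n` and the one number `i = ⌊n / 2⌋ + 4 n ^ 3 + n ^ 2 + 2 n`;
* `SS_i(Y_n)` for infinitely many `n` and the same `i`;
* `SS_i(X)` for all `i` and all smooth proper varieties over `F_p`;
* `SS_i(X)` for all `i` and all varieties `X` over all finite fields of characteristic `p`.

So Q1 in characteristic `p` is a question on one homology group of each member of one explicit
sequence of smooth affine cubic hypersurfaces with integral coefficients, or of étale coverings of
affine spaces. Here the varieties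
are the schemes of finite type with an affine bundle whose total space is affine; by Jouanolou these
include all quasi-projective schemes.

Idea of the proof. `G_n` is linear in the variables `t_e`. Let `W_n` be the zero set of the equations
in the affine space `S` with the coordinates `x_i, z_ij, c_r`. The map `E_n → S` is an affine bundle
over the complement of `W_n`, and the disjoint union of two affine bundles over `W_n`. It follows that
the homology of `E_n` is the direct sum of the homology of one of these two bundles and of the image
of the homology of `S`. The scheme `W_n` is the disjoint union over all sets `s` of relations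
(`c_r = 1` for `r` in `s`, `c_r = 0` for the others) of the schemes defined by the equations in `s`.
Every affine scheme `Z` of finite type over the prime field is defined by relations of the three kinds in
`a` variables, for some `a`; then `Z × A^b` is defined by such relations in `n` variables if `n ≥ a + b`.
The groups of dimension `d` for `Z` are those of dimension `d + b` for `Z × A^b`. If `n` is large, then we
can take `b = ⌊n / 2⌋ - d`.
-/

set_option autoImplicit false

open CategoryTheory AlgebraicGeometry Pool.Agent.H854.K
open Pool.Agent.H854.SQ (IsPrimeField univ Transfers totalDegree_univ map_univ)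
open Pool.Agent.H854.AS (pol_two pol_prime)

namespace Pool.Agent.Results.MP_16ef92_ag.OneGroupForEachCubic

section Defs

variable {k : Type} [Field k] {F : Type} [Field F]

/-- The statement `SS_i(X)`: the eigenvalue `1` of the Frobenius on `H_{2 i}(X̄, ℚ_ℓ(i))` is
semisimple. -/
def SS (H : Sys k (Polynomial F)) (X : Sch k) (i : ℤ) : Prop := Semi ((H.g 0).M X i)

/-- `SS_i(X)` for all `i` and all schemes over `k` with the property `S`. -/
def SSFor (H : Sys k (Polynomial F)) (S : Sch k → Prop) : Prop := ∀ X, S X → ∀ i, SS H X i

/-- `SS_i` for the one number `i = index n`, for infinitely many of the coverings `y ^ m - y = G_n`. -/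
def SSForInfinitelyMany (H : Sys k (Polynomial F)) (m : ℕ) : Prop :=
  ∃ᶠ n in Filter.atTop, SS H (seq k m n) (index n)

/-- The generalized eigenvectors for the eigenvalue `1` in the homology of a variety come from a
smooth proper variety. -/
def DominatedBySmoothProper (H : Sys k (Polynomial F)) : Prop :=
  ∀ X, IsAdm X → ∀ i, ∃ X', IsSmoothProper X' ∧ Covers ((H.g 0).M X' i) ((H.g 0).M X i)

/-- The relation between the theories over the finite field `k` and over its extension `K` of degree
`d`: the homology of a scheme over `K`, considered as a scheme over `k`, is induced. -/
def IsRestriction (d : ℕ) {K : Type} [Field K] [Algebra k K] (H : Sys k (Polynomial F))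
    (H' : Sys K (Polynomial F)) : Prop :=
  ∀ (X : Sch K) (i : ℤ), IsInduced d ((H.g 0).M (down k X) i) ((H'.g 0).M X i)

/-- `SS_i(X)` for all `i` and all varieties over the finite extensions of `k`. -/
def SSForExtensions (H : Sys k (Polynomial F)) : Prop :=
  ∀ (K : Type) [Field K] [Algebra k K] [Module.Finite k K] (H' : Sys K (Polynomial F)),
    IsRestriction (Module.finrank k K) H H' → SSFor H' IsAdm

end Defs

theorem transfers_ss {k : Type} [Field k] {F : Type} [Field F] {H : Sys k (Polynomial F)}
    (hH : H.IsHomology) : Transfers (SS H) := by
  have h1 := transfers hH (A := fun m V => m = 0 → Semi V)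
    (fun m V W hVW h hm => (h hm).of_summand hVW)
  have h2 : (fun (X : Sch k) n => ∀ m : ℤ, m = 0 → Semi ((H.g m).M X n)) = SS H := by
    funext X n
    refine propext ⟨fun h => h 0 rfl, fun h m hm => ?_⟩
    subst hm
    exact h
  rwa [h2] at h1

/-- **`SS_i` for all varieties over all finite fields of characteristic `p` is a statement on one
sequence of smooth affine cubic hypersurfaces.** -/
theorem result {k : Type} [Field k] (hk : IsPrimeField k) (p : ℕ) [Fact p.Prime] [CharP k p]
    {F : Type} [Field F] [CharZero F] (H : Sys k (Polynomial F)) (hH : H.IsHomology)
    (hD : DominatedBySmoothProper H) :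
    List.TFAE [SSForInfinitelyMany H 2, SSForInfinitelyMany H p, SSFor H IsSmoothProper,
      SSFor H IsAdm ∧ SSForExtensions H] ∧
    ∀ n : ℕ, 0 < n → Smooth (str (seq k 2 n)) ∧ Smooth (str (seq k p n)) ∧
      (univ ℤ n).totalDegree ≤ 3 ∧ MvPolynomial.map (Int.castRingHom k) (univ ℤ n) = univ k n := by
  refine ⟨?_, fun n hn => ⟨smooth_seq_two hn, smooth_seq_prime p hn, totalDegree_univ ℤ n,
    map_univ _ n⟩⟩
  have key : SSFor H IsAdm → SSFor H IsAdm ∧ SSForExtensions H := fun h =>
    ⟨h, fun K _ _ _ H' hI X hX i => (h _ (isAdm_down hX) i).of_induced Module.finrank_pos (hI X i)⟩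
  tfae_have 1 → 4 := fun h => key fun X hX d => reduce_one (transfers_ss hH) hk pol_two h X hX d
  tfae_have 2 → 4 := fun h => key fun X hX d =>
    reduce_one (transfers_ss hH) hk (pol_prime p) h X hX d
  tfae_have 4 → 3 := fun h X hX => h.1 X hX.1
  tfae_have 3 → 4 := by
    refine fun h => key fun X hX i => ?_
    obtain ⟨X', hX', hb⟩ := hD X hX i
    exact Semi.of_covers hb (h X' hX' i)
  tfae_have 4 → 1 := fun h => Filter.Eventually.frequently (Filter.Eventually.of_forall
    fun n => h.1 _ (isAdm_seq pol_two n) _)
  tfae_have 4 → 2 := fun h => Filter.Eventually.frequently (Filter.Eventually.of_forall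
    fun n => h.1 _ (isAdm_seq (pol_prime p) n) _)
  tfae_finish

end Pool.Agent.Results.MP_16ef92_ag.OneGroupForEachCubic
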