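import Pool.Agent.H857.MX.Master
import Pool.Agent.H857.MX.SSMain

/-!
# MP_16ef92_ag: semisimplicity of the eigenvalue one on the étale homology of `A × X`, for arbitrary
varieties `X` and all abelian varieties `A` but a set of isogeny classes of the exact order of
magnitude of its size

Let `g i` (`i` in a finite set `I`) be positive integers. For a prime power `q = p ^ a` let
`families g p a` be the finite set of the families `f i` of Weil polynomials of degrees `2 g i`
relative to `q` with integral Newton polygons. It contains the families of the characteristic
polynomials of the Frobenius endomorphisms of abelian varieties `A i` of dimensions `g i` over the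
field with `q` elements (Weil), which determine the `A i` up to isogeny (Tate). It has
about `q ^ (∑ g i (g i + 1) / 4)` elements.

Let `X` be any variety over the field with `q` elements (it need be neither smooth nor proper nor
irreducible), and let the `ρ k` be the eigenvalues of its Frobenius endomorphism on the cohomology
with compact supports. (More generally, let the `ρ k` be any `r` Weil numbers of weights less than
`c` with slopes in `(1 / D) ℤ`.) The family `f` is exceptional for `X` if there is a multiplicative
relation between roots of the `f i`, the numbers `ρ k` and `q`, up to roots of unity, which does not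
come from the pairs of conjugate roots `z`, `q / z`.

1. The proportion of the exceptional families among all the families is of the exact order of
   magnitude `∑ q ^ (- δ (g i) / 2)`, where `δ (g) = g` for `g ≠ 2` and `δ (2) = 1`: it is at most
   `C` times, and at least `1 / C` times this sum. The constant `C` depends only on the `g i`, on
   `r`, `c` and `D` - not on `p`, `q` and `X`.
2. For all families `f` which are not exceptional, for all `s > 0`, for all abelian varieties
   `A` over the field with `Q = q ^ s` elements which are isogenous to a product of powers of abelian
   varieties `A i` with characteristic polynomials `f i`, and all varieties `X'`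
   over the field with `Q` elements whose Frobenius eigenvalues lie, up to powers, in the group
   generated by the `ρ k` and `q` (for instance `X' = X`, or a subvariety or a power of `X`): for all
   `i` the eigenvalue `1` is semisimple on `H_(2 i)(A × X', ℚ_ℓ(i))` if and only if it is semisimple
   on `H_(2 (i - k))(X', ℚ_ℓ(i - k))` for all `0 ≤ k ≤ dim A` (`SemisimpleOfProducts`). This is a
   statement of linear algebra, proved without any assumption: `H_(2 i)(·, ℚ_ℓ(i))` is dual to
   `H ^ (2 i)_c`, on which the eigenvalue `1` corresponds to the eigenvalue `Q ^ i` of the Frobenius
   endomorphism, and by the Kunneth formula `H ^ (2 i)_c (A × X')` is the sum of the spaces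
   `⋀ ^ j V ⊗ H ^ n_c (X')`, `j + n = 2 i`, where `V = H ^ 1 (A)` is spanned by eigenvectors (Weil).

So `SS_i` for `X` and all `i` implies `SS_i` for `A × X` and all `i`, for all `A` but a proportion of
isogeny classes which is `O (q ^ (- g / 2))` (`O (q ^ (- 1 / 2))` for `g = 2`) with constants
independent of `q`.
-/

set_option autoImplicit false

namespace Pool.Agent.Results.MP_16ef92_ag.SharpExceptionalSet

open Pool.Agent.H857.SX Pool.Agent.H857.MX

/-- **The exceptional set.** -/
theorem result {I : Type} [Fintype I] (g : I → ℕ) (hg : ∀ i, 0 < g i) (r D c : ℕ) (hD : 0 < D) :
    ∃ C : ℝ, 0 < C ∧ ∀ (p : ℕ) [Fact p.Prime] (a : ℕ), 0 < a →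
      ((families g p a).Finite ∧
        ∏ i, Real.sqrt ((p : ℝ) ^ a) ^ (g i * (g i + 1) / 2) ≤ C * (families g p a).ncard ∧
        (families g p a).ncard ≤ C * ∏ i, Real.sqrt ((p : ℝ) ^ a) ^ (g i * (g i + 1) / 2)) ∧
      ∀ (w : Fin r → ℕ) (ρ : Fin r → ℂ), (∀ k, w k < c ∧ IsWeilNumber p a D (w k) (ρ k)) →
        (({f ∈ families g p a | ¬ Independent f (p ^ a) ρ}.ncard : ℝ) ≤
            C * (rate g ((p : ℝ) ^ a) * (families g p a).ncard) ∧
          rate g ((p : ℝ) ^ a) * (families g p a).ncard ≤
            C * {f ∈ families g p a | ¬ Independent f (p ^ a) ρ}.ncard) ∧
        ∀ f ∈ families g p a, Independent f (p ^ a) ρ →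
          SemisimpleOfProducts (p ^ a) f (Generated (p ^ a) ρ) :=
  master g hg r D c hD (fun q f R => SemisimpleOfProducts q f R)
    fun _ _ _ hq hne _ hR => semisimpleOfProducts hq hR fun i z hz => (hne i z hz).1

end Pool.Agent.Results.MP_16ef92_ag.SharpExceptionalSet
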