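import Mathlib
import Pool.Agent.H855.TV.Higher

/-!
# Semisimplicity of the Frobenius eigenvalue 1 for the products of **every** variety with all varieties
which satisfy the strong form of the conjecture of Tate, over all finite fields: finitely many
exceptional slope vectors

Let `K i` (`i` in any set `I`) be CM fields, for instance **all** CM fields, and let `V i` be the space of
the odd rational functions on the complex embeddings of `K i`, a representation of the automorphisms of
`ℂ`. We fix an isomorphism `ν` of the algebraic closure of `ℚ_p` with `ℂ`; it defines a `p`-adic
valuation `v` of `ℂ` with `v p = 1`. The slope vector of a Weil number `π` for `p ^ a` in `K i` is the
function `x φ = 2 v (φ π) - a` on the complex embeddings `φ` of `K i` (`slopeVector`). Let `π j` (`j` in a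
finite set `J`) be Weil numbers for `p ^ a` (any `a > 0`), each in one of the fields `K i`.

**The varieties `X`.** Let `X` be a smooth projective geometrically connected variety over the field with
`Q = p ^ r` elements (any `r > 0`), such that

* up to powers, the Frobenius eigenvalues of `X` are products of powers of conjugates of the `π j` and of
  `p` (`IsGenerated`);
* `X` satisfies the strong form of the conjecture of Tate: for all `i` the elements of the cohomology which
  Frobenius multiplies by `Q ^ i` are linear combinations of classes of cycles of codimension `i`, and
  this eigenvalue is semisimple (`IsTateVariety`; it is sufficient to consider cycles in given sets `S i`,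
  for instance the products of `i` divisors);
* homologically trivial correspondences from `X` to `X` with rational coefficients are nilpotent; this is
  true if the Chow motive of `X` is finite-dimensional in the sense of Kimura, for instance for abelian
  varieties, for products of curves, and for all varieties dominated by products of curves;
* the supersingular Frobenius eigenvalues of `X` are powers of `Q` (`IsTight`); this is true after a finite
  extension of the base field if and only if the cohomology of `X` in the odd degrees has no supersingular
  part.

For instance (after a finite extension of the base field, and without supersingular part in the odd
degrees) `X` can be a product of ordinary elliptic curves (Spiess), a Kummer surface, any abelian variety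
whose Tate classes are generated by divisor classes, or one with **exotic** Tate classes which are known to
be algebraic, or a product of curves with such a Jacobian.

A number `ρ` comes from the finite set `Ω` of complex numbers (`From p Ω`) if it is not zero and a power
of it is the product of a power of a conjugate of an element of `Ω`, or of `1`, and of a power of `p`.
(All Frobenius eigenvalues of a variety over a finite field, and of its base changes to all finite
extensions, come from such a set `Ω`: take one root of each irreducible factor of the characteristic
polynomials.)

**The varieties `Y`.** Let `Y` be **any** variety over the field with `Q` elements (singular, not proper)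
such that the eigenvalues of Frobenius on its `ℓ`-adic homology, that is, of the Frobenius endomorphism of
`Y` on the `ℓ`-adic homology of `X × Y`, are roots of rational polynomials all of whose complex roots come
from `Ω` (`FrobeniusFrom`).

**The theorem: there is a set `E` of at most `|Ω|` pairs `(i, v)`, where `v` is an odd function, not zero,
on the complex embeddings of `K i`, such that for all `a`, `r`, all families `π j` for which no vector of
`E` is a combination of the slope vectors, all `X` as above and all `Y` as above the statement below is
true.** The set `E` depends only on `ν`, `Ω` and the fields `K i`. If `Ω` is stable under the automorphisms
of `ℂ` and its elements are nonzero and lie in CM fields or totally real fields (the set of all Frobenius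
eigenvalues; `IsStable`), then moreover `∑ w i ≤ |Ω|`, the sum over the elements `(i, v)` of `E`; here
`w i` is twice a lower bound for the dimensions of the nonzero stable subspaces of `V i`, so
`w i = [K i : ℚ]` if `V i` is irreducible, and `w i = 2` is always possible (`IsWeight`, `IsSmall`).

A vector `v` on the embeddings of a field `K` is a combination of the slope vectors (`IsCombination`)
if it is the sum of the images of the `x j` under equivariant maps, that is,
`v φ = ∑ t φ (j, ψ) * x j ψ` with rational numbers `t φ (j, ψ)` which are invariant under the
automorphisms of `ℂ`, odd in `ψ`, and zero if the fields `K` and `L j` (the field of `π j`) are unrelated
(there are no nonzero equivariant maps between their odd functions). So if `K i` is unrelated to all the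
`L j` the condition on the elements `(i, v)` of `E` is satisfied: apart from at most `|Ω|` fields, and the
fields related to them, there are **no** exceptional varieties `X`, over all finite fields. (Exceptions
are necessary: a variety can have common Tate classes with itself.)

The groups are indexed cohomologically: let `e` be a fixed number and
`R^i(Y, j) = H_(2 e - i)(Y, ℚ_ℓ(e - j))`, and the same for `X × Y` with `e + dim X` instead of `e`,
so that the product with a cycle of codimension `c` on `X` has the bidegree `(2 c, c)`. The Frobenius
endomorphism of `Y` is to be read as `Q ^ e` times the geometric Frobenius on the homology without
twist; then the invariants are the elements on which it is multiplication by `Q ^ j`. Then for all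
`i` and `j` **the eigenvalue `Q ^ j` of Frobenius on `R^i(X × Y, j)` (before the twist; the eigenvalue
`1` after the twist) is semisimple if and only if this is true for `R^(i - 2 k)(Y, j - k)` for
`0 ≤ k ≤ dim X`.** For `i = 2 j` this is: `SS_a(X × Y)` holds if and only if `SS_(a - k)(Y)` holds for
`0 ≤ k ≤ dim X`.

This is not formal: only the eigenvalues `Q ^ i` of `X` are supposed to be semisimple, and the
semisimplicity of the eigenvalue `Q ^ j` for `X × Y` involves all eigenvalues `ρ` of `Y` for which `ρ α`
is a power of `Q` for some eigenvalue `α` of `X`.

The result `ExceptionalVectors` of this run, which is replaced by this one, and the results
`ExceptionalSlopeLines` and `EveryVarietyTimes` of earlier runs are about abelian varieties `X` (called `A`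
there) given by families of Weil numbers which are independent, so that all Tate classes on `X` are
polynomials in divisor classes. Here `X` is any variety which satisfies the strong form of the conjecture
of Tate, and the family `π j` is arbitrary: it is not supposed that the Tate classes are generated by
divisors, and `X` need not be an abelian variety. If the Tate classes on `X` are generated by divisors
the `D t` can be chosen as products of divisors (take for `S i` the products of `i` divisors).

The framework: the Chow ring and the ring of correspondences of `X`, with rational coefficients, and the
whole `ℓ`-adic cohomology of `X`, with coefficients in `ℂ` (we choose an isomorphism of the algebraic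
closure of `ℚ_ℓ` with `ℂ`), with the formal properties (`AbelianData`, a structure of the library, called
`A` in its definitions, whose field `H1` is not used; `IsTateVariety`); and theories relative to `Y` (`RelData`, `IsRel`): the
groups `H^i(Y, j)` and `H^i(X × Y, j)`, with the products with classes on `X`, the push-forward from
`X × Y` to `Y`, the operation of the correspondences from `X` to `X` on `H^i(X × Y, j)` and the
Frobenius endomorphism of `Y`.

The proof. Let `α` be a Frobenius eigenvalue of `X` and `ρ` a number that comes from `Ω`, with `α ρ` a power
of `Q`. Up to powers `α` is a product of conjugates of the `π j`, so that the odd part of the function
`σ ↦ v (σ α)` of the automorphisms `σ` of `ℂ` is a value `σ ↦ ∑ n (j, ψ) x j (σ ψ)` of the relation map of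
the family, and it is the opposite of the one of `ρ`. For each `β` in `Ω` there is one vector `v` (the
exceptional vector of `β`) such that for all families outside of it only zero is at the same time a value
of the relation map and a multiple of the function of `β` (`exists_core`: one projects orthogonally to
the representation generated by a relation, and compares the relations of two families). So outside of
the exceptional vectors `α` is supersingular, hence a power of `Q` (`hasCore_tate`). By the conjecture of
Tate, the semisimplicity and Poincaré duality there are dual systems of cycles `D t`, `E t` on `X` with
`deg (D t · E u) = δ`, whose classes are bases of the spaces of Tate classes (`exists_dual`). Let `p` be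
the projector which they define, `F` the Frobenius endomorphism of `X`, and `P` the product of high powers
of the minimal polynomials of the eigenvalues of `F` which are not powers of `Q`. Then `P (F)` maps the
cohomology of `X` to the Tate classes, so that the correspondence `(1 - p) P (F)` is homologically
trivial, hence nilpotent; and `P (F)` is invertible on the elements on which a power of `F φ - Q ^ j` is zero,
where `φ` is the Frobenius endomorphism of `Y`,
since there `F` satisfies the polynomial with the roots `Q ^ j / ρ`. So `p` acts there as the identity.
-/

set_option autoImplicit false

namespace Pool.Agent.Results.MP_16ef92_ag.TimesTateVarieties

open NumberField Pool.Agent.Y137.MV Pool.Agent.H855.CM Pool.Agent.H855.TV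

/-- **The Frobenius eigenvalue `1` is semisimple for `X × Y` in the bidegree `(i, j)` if and only if it
is for `Y` in the bidegrees `(i - 2 k, j - k)`, `0 ≤ k ≤ dim X`, for all `Y` with Frobenius
eigenvalues from the finite set `Ω` and all varieties `X` over finite fields which satisfy the strong form
of the conjecture of Tate, with nilpotent homologically trivial correspondences, outside of at most `|Ω|`
exceptional slope vectors.** -/
theorem result {p : ℕ} [Fact p.Prime] (ν : PadicAlgCl p ≃+* ℂ) {I : Type}
    (K : I → Type) [∀ i, Field (K i)] [∀ i, NumberField (K i)] [∀ i, IsCMField (K i)]
    (w : I → ℕ) (hw : ∀ i, IsWeight (K i) (w i)) (Ω : Finset ℂ) :
    ∃ E : Finset (Σ i, ((K i →+* ℂ) → ℝ)), IsSmall w Ω E ∧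
      ForAllTateVarieties ν K (fun X Q _ => SemisimpleHigher p Ω X Q) E := by
  exact exists_forAll ν K w hw Ω _ fun X Q S hX h =>
    semisimpleHigher (hasClasses_of hX.correspondence h)

end Pool.Agent.Results.MP_16ef92_ag.TimesTateVarieties
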